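import Pool.Agent.V11287.GC.Law

/-!
Consecutive integer radii.
-/

set_option autoImplicit false

open Filter Topology MeasureTheory

namespace Pool.Agent.V11287.GC

theorem err_neg_iff {x : ℝ} (hx : 0 < x) : err x < 0 ↔ (count x : ℝ) < Real.pi * x := by
  unfold err
  have hs : (0 : ℝ) < x ^ (1 / 4 : ℝ) := by positivity
  rw [div_lt_iff₀ hs, zero_mul, sub_neg]

theorem err_pos_iff {x : ℝ} (hx : 0 < x) : 0 < err x ↔ Real.pi * x < (count x : ℝ) := by
  unfold err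
  have hs : (0 : ℝ) < x ^ (1 / 4 : ℝ) := by positivity
  rw [lt_div_iff₀ hs, zero_mul, sub_pos]

theorem Cx_iff (n : ℕ) : Pool.Agent.H383.Circ.Cx ((n : ℝ) ^ 2) < 0 ↔
    (count ((n : ℝ) ^ 2) : ℝ) < Real.pi * (n : ℝ) ^ 2 := by
  unfold Pool.Agent.H383.Circ.Cx count
  rw [sub_neg]

/-- the density of the radii with a negative error, `5/6 ≤ d0` -/
theorem neg_density : ∃ d0 : ℝ, 5 / 6 ≤ d0 ∧ ∀ (i : ℕ) (δ : ℝ),
    HasDensity {n : ℕ | (count (((n : ℝ) + i) ^ 2) : ℝ) < Real.pi * ((n : ℝ) + i) ^ 2} δ →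
      δ = d0 := by
  classical
  obtain ⟨d0, h1, -, hwin⟩ := Pool.Agent.H383.Circ.radii2
  simp only [Cx_iff] at hwin
  refine ⟨d0, h1, fun i δ hδ => ?_⟩
  have t1 := hδ.tendsto
  refine tendsto_nhds_unique t1 ?_
  rw [Metric.tendsto_atTop]
  intro η hη
  obtain ⟨N₀, hN⟩ := hwin 1 one_pos (η / 2) (half_pos hη)
  refine ⟨max N₀ ⌈(i : ℝ) ^ (1 / 2 + 1 : ℝ)⌉₊, fun N hN' => ?_⟩
  have h2 := hN N ((le_max_left _ _).trans hN') i (by
    refine (Nat.le_ceil _).trans ?_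
    exact_mod_cast (le_max_right _ _).trans hN')
  rw [Real.dist_eq]
  have e1 : ((Finset.Ico 1 (1 + N)).filter (fun n : ℕ => n ∈ {n : ℕ |
      (count (((n : ℝ) + i) ^ 2) : ℝ) < Real.pi * ((n : ℝ) + i) ^ 2})).card
      = ((Finset.Ioc i (i + N)).filter (fun n : ℕ =>
        (count ((n : ℝ) ^ 2) : ℝ) < Real.pi * (n : ℝ) ^ 2)).card := by
    have e2 : Finset.Ioc i (i + N) = (Finset.Ico 1 (1 + N)).map (addRightEmbedding i) := by
      rw [Finset.map_add_right_Ico]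
      ext x
      simp only [Finset.mem_Ioc, Finset.mem_Ico]
      omega
    rw [e2, Finset.filter_map, Finset.card_map]
    congr 1
    refine Finset.filter_congr fun n _ => ?_
    simp
  rw [e1]
  linarith

theorem cons_law (k : ℕ) : ∃ μ : ProbabilityMeasure (Fin k → ℝ),
    (μ : Measure (Fin k → ℝ)) ≪ volume ∧
    (∀ A : Set (Fin k → ℝ), IsOpen A → A.Nonempty → 0 < (μ : Measure (Fin k → ℝ)) A) ∧
    (∀ i, (μ : Measure (Fin k → ℝ)).real {x | ¬ x i < 0} ≤ 1 / 6) ∧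
    ∀ A : Set (Fin k → ℝ), volume (frontier A) = 0 →
      HasDensity {n : ℕ | (fun i : Fin k => err (((n : ℝ) + (i : ℕ)) ^ 2)) ∈ A}
        ((μ : Measure (Fin k → ℝ)).real A) := by
  obtain ⟨μ, g, -, -, hgμ, hop, hset⟩ := law (k := k) 1 one_pos (fun i => 2 * ((i : ℕ) : ℝ))
    (fun i => ((i : ℕ) : ℝ) ^ 2) (by
      intro i j h
      have h' : 2 * ((i : ℕ) : ℝ) = 2 * ((j : ℕ) : ℝ) := h
      have : ((i : ℕ) : ℝ) = ((j : ℕ) : ℝ) := by linarith
      exact Fin.ext (by exact_mod_cast this)) (by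
      intro i n hn
      have hn0 : (0 : ℝ) < n := by exact_mod_cast hn
      push_cast
      positivity)
  have hac : (μ : Measure (Fin k → ℝ)) ≪ volume := by
    rw [hgμ]
    exact withDensity_absolutelyContinuous _ _
  have e1 : ∀ (n : ℕ) (i : Fin k), ((1 : ℕ) : ℝ) * (n : ℝ) ^ 2 + 2 * ((i : ℕ) : ℝ) * n
      + ((i : ℕ) : ℝ) ^ 2 = ((n : ℝ) + (i : ℕ)) ^ 2 := by
    intro n i
    push_cast
    ring
  simp only [e1] at hset
  obtain ⟨d0, hd0, huniq⟩ := neg_density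
  refine ⟨μ, hac, hop, fun i => ?_, hset⟩
  have hm : MeasurableSet {x : Fin k → ℝ | x i < 0} :=
    measurableSet_lt (measurable_pi_apply i) measurable_const
  have hf : volume (frontier {x : Fin k → ℝ | x i < 0}) = 0 :=
    measure_mono_null (frontier_lt_subset_eq (continuous_apply i) continuous_const) (coord_null i)
  have h1 := hset _ hf
  have h2 := huniq i _ (h1.congr fun n hn => by
    have hn0 : (0 : ℝ) < n := by exact_mod_cast hn
    exact err_neg_iff (by positivity))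
  have h3 : (μ : Measure (Fin k → ℝ)).real {x | ¬ x i < 0}
      = 1 - (μ : Measure (Fin k → ℝ)).real {x | x i < 0} := by
    have : {x : Fin k → ℝ | ¬ x i < 0} = {x | x i < 0}ᶜ := rfl
    rw [this, probReal_compl_eq_one_sub hm]
  rw [h3, h2]
  linarith

end Pool.Agent.V11287.GC
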