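import Mathlib

/-!
Sign patterns and order patterns of vectors: null frontiers, partitions of the space.
-/

set_option autoImplicit false

open Filter Topology MeasureTheory

namespace Pool.Agent.V11287.GC

/-- the vectors with the sign pattern `s` -/
def signSet {k : ℕ} (s : Fin k → Bool) : Set (Fin k → ℝ) :=
  {x | ∀ i, if s i then 0 < x i else x i < 0}

/-- the vectors with the order pattern `σ` -/
def orderSet {k : ℕ} (σ : Equiv.Perm (Fin k)) : Set (Fin k → ℝ) :=
  {x | StrictMono fun i => x (σ i)}

theorem hyper_null {k : ℕ} (l : (Fin k → ℝ) →ₗ[ℝ] ℝ) (hl : l ≠ 0) :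
    volume {x : Fin k → ℝ | l x = 0} = 0 := by
  have h : ({x : Fin k → ℝ | l x = 0} : Set (Fin k → ℝ)) = (LinearMap.ker l : Set (Fin k → ℝ)) := by
    ext x; simp
  rw [h]
  refine Measure.addHaar_submodule volume _ ?_
  intro h1
  exact hl (LinearMap.ker_eq_top.1 h1)

theorem coord_null {k : ℕ} (i : Fin k) : volume {x : Fin k → ℝ | x i = 0} = 0 := by
  refine hyper_null (LinearMap.proj i) ?_
  intro h
  have := congrArg (fun l : (Fin k → ℝ) →ₗ[ℝ] ℝ => l (Pi.single i 1)) h
  simp at this

theorem diff_null {k : ℕ} {i j : Fin k} (h : i ≠ j) : volume {x : Fin k → ℝ | x i = x j} = 0 := by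
  have h1 := hyper_null ((LinearMap.proj i : (Fin k → ℝ) →ₗ[ℝ] ℝ) - LinearMap.proj j) (by
    intro h0
    have := congrArg (fun l : (Fin k → ℝ) →ₗ[ℝ] ℝ => l (Pi.single i 1)) h0
    simp [Pi.single_eq_of_ne h.symm] at this)
  refine measure_mono_null ?_ h1
  intro x hx
  have hx' : x i = x j := hx
  simp [hx']

/-- the points on some coordinate hyperplane -/
theorem coords_null (k : ℕ) : volume {x : Fin k → ℝ | ∃ i, x i = 0} = 0 := by
  have h : {x : Fin k → ℝ | ∃ i, x i = 0} = ⋃ i, {x : Fin k → ℝ | x i = 0} := by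
    ext x; simp
  rw [h]
  exact measure_iUnion_null coord_null

/-- the points with two equal coordinates -/
theorem diffs_null (k : ℕ) : volume {x : Fin k → ℝ | ¬ Function.Injective x} = 0 := by
  have h : {x : Fin k → ℝ | ¬ Function.Injective x}
      ⊆ ⋃ p : {p : Fin k × Fin k // p.1 ≠ p.2}, {x : Fin k → ℝ | x p.1.1 = x p.1.2} := by
    intro x hx
    have hx' : ¬ Function.Injective x := hx
    unfold Function.Injective at hx'
    push Not at hx'
    obtain ⟨i, j, h1, h2⟩ := hx'
    exact Set.mem_iUnion.2 ⟨⟨(i, j), h2⟩, h1⟩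
  refine measure_mono_null h ?_
  exact measure_iUnion_null fun p => diff_null p.2

theorem signSet_open {k : ℕ} (s : Fin k → Bool) : IsOpen (signSet s) := by
  have h : signSet s = ⋂ i, {x : Fin k → ℝ | if s i then 0 < x i else x i < 0} := by
    ext x; simp [signSet]
  rw [h]
  refine isOpen_iInter_of_finite fun i => ?_
  cases h1 : s i
  · simpa using isOpen_lt (continuous_apply i) (continuous_const (y := (0 : ℝ)))
  · simpa using isOpen_lt (continuous_const (y := (0 : ℝ))) (continuous_apply i)

theorem signSet_nonempty {k : ℕ} (s : Fin k → Bool) : (signSet s).Nonempty := by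
  refine ⟨fun i => if s i then 1 else -1, fun i => ?_⟩
  cases h1 : s i <;> simp [h1]

theorem signSet_frontier {k : ℕ} (s : Fin k → Bool) : volume (frontier (signSet s)) = 0 := by
  refine measure_mono_null ?_ (coords_null k)
  intro x hx
  rw [(signSet_open s).frontier_eq] at hx
  obtain ⟨h1, h2⟩ := hx
  by_contra h3
  simp only [Set.mem_setOf_eq, not_exists] at h3
  refine h2 fun i => ?_
  have hc : IsClosed {x : Fin k → ℝ | if s i then 0 ≤ x i else x i ≤ 0} := by
    cases h4 : s i
    · simpa using isClosed_le (continuous_apply i) (continuous_const (y := (0 : ℝ)))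
    · simpa using isClosed_le (continuous_const (y := (0 : ℝ))) (continuous_apply i)
  have h5 : x ∈ {x : Fin k → ℝ | if s i then 0 ≤ x i else x i ≤ 0} := by
    refine closure_minimal (fun y hy => ?_) hc h1
    have := hy i
    cases h4 : s i
    · simp only [h4] at this ⊢
      simpa using (by simpa using this : y i < 0).le
    · simp only [h4] at this ⊢
      simpa using (by simpa using this : 0 < y i).le
  have h6 := h3 i
  cases h4 : s i
  · have h7 : x i ≤ 0 := by simpa [h4] using h5
    simpa using lt_of_le_of_ne h7 h6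
  · have h7 : 0 ≤ x i := by simpa [h4] using h5
    simpa using lt_of_le_of_ne h7 (Ne.symm h6)

theorem signSet_disjoint {k : ℕ} : Pairwise (Function.onFun Disjoint (signSet (k := k))) := by
  intro s t hst
  rw [Function.onFun, Set.disjoint_left]
  intro x hx hy
  apply hst
  funext i
  have h1 := hx i
  have h2 := hy i
  cases hs : s i <;> cases ht : t i
  · rfl
  · simp [hs, ht] at h1 h2; linarith
  · simp [hs, ht] at h1 h2; linarith
  · rfl

theorem sign_sum {k : ℕ} (μ : ProbabilityMeasure (Fin k → ℝ))
    (h : (μ : Measure (Fin k → ℝ)) ≪ volume) :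
    ∑ s : Fin k → Bool, (μ : Measure (Fin k → ℝ)).real (signSet s) = 1 := by
  rw [← measureReal_iUnion_fintype signSet_disjoint (fun s => (signSet_open s).measurableSet)]
  have h1 : (μ : Measure (Fin k → ℝ)) (⋃ s, signSet s)ᶜ = 0 := by
    refine measure_mono_null ?_ (h (coords_null k))
    intro x hx
    by_contra h3
    simp only [Set.mem_setOf_eq, not_exists] at h3
    refine hx (Set.mem_iUnion.2 ⟨fun i => decide (0 < x i), fun i => ?_⟩)
    rcases lt_or_gt_of_ne (h3 i) with h4 | h4
    · have : ¬ 0 < x i := not_lt.2 h4.le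
      simp [this, h4]
    · simp [h4]
  have hm : MeasurableSet (⋃ s : Fin k → Bool, signSet s) :=
    MeasurableSet.iUnion fun s => (signSet_open s).measurableSet
  have h2 := prob_compl_eq_zero_iff hm |>.1 h1
  rw [measureReal_def, h2]
  rfl

theorem orderSet_open {k : ℕ} (σ : Equiv.Perm (Fin k)) : IsOpen (orderSet σ) := by
  have h : orderSet σ = ⋂ p : {p : Fin k × Fin k // p.1 < p.2},
      {x : Fin k → ℝ | x (σ p.1.1) < x (σ p.1.2)} := by
    ext x
    simp only [orderSet, StrictMono, Set.mem_setOf_eq, Set.mem_iInter, Subtype.forall, Prod.forall]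
  rw [h]
  refine isOpen_iInter_of_finite fun p => ?_
  exact isOpen_lt (continuous_apply _) (continuous_apply _)

theorem orderSet_nonempty {k : ℕ} (σ : Equiv.Perm (Fin k)) : (orderSet σ).Nonempty := by
  refine ⟨fun i => ((σ.symm i : Fin k) : ℕ), fun i j hij => ?_⟩
  simp only [Equiv.symm_apply_apply, Nat.cast_lt]
  exact hij

theorem orderSet_frontier {k : ℕ} (σ : Equiv.Perm (Fin k)) :
    volume (frontier (orderSet σ)) = 0 := by
  refine measure_mono_null ?_ (diffs_null k)
  intro x hx
  rw [(orderSet_open σ).frontier_eq] at hx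
  obtain ⟨h1, h2⟩ := hx
  intro h3
  refine h2 fun i j hij => ?_
  have hc : IsClosed {x : Fin k → ℝ | x (σ i) ≤ x (σ j)} :=
    isClosed_le (continuous_apply _) (continuous_apply _)
  have h5 : x ∈ {x : Fin k → ℝ | x (σ i) ≤ x (σ j)} :=
    closure_minimal (fun y hy => (hy hij).le) hc h1
  refine lt_of_le_of_ne h5 fun h6 => ?_
  exact hij.ne (σ.injective (h3 h6))

theorem orderSet_disjoint {k : ℕ} : Pairwise (Function.onFun Disjoint (orderSet (k := k))) := by
  intro σ τ hst
  rw [Function.onFun, Set.disjoint_left]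
  intro x hx hy
  apply hst
  have h1 : StrictMono fun i => σ.symm (τ i) := by
    intro i j hij
    have h2 : x (τ i) < x (τ j) := hy hij
    have h3 : x (σ (σ.symm (τ i))) < x (σ (σ.symm (τ j))) := by simpa using h2
    exact (StrictMono.lt_iff_lt hx).1 h3
  have h4 : ∀ i, σ.symm (τ i) = i := by
    intro i
    have e : (h1.orderIsoOfSurjective _ (fun y => ⟨τ.symm (σ y), by simp⟩)) = OrderIso.refl (Fin k) :=
      Subsingleton.elim _ _
    have := congrArg (fun f : Fin k ≃o Fin k => f i) e
    simpa using this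
  ext i
  have := h4 i
  rw [Equiv.symm_apply_eq] at this
  rw [this]

theorem order_sum {k : ℕ} (μ : ProbabilityMeasure (Fin k → ℝ))
    (h : (μ : Measure (Fin k → ℝ)) ≪ volume) :
    ∑ σ : Equiv.Perm (Fin k), (μ : Measure (Fin k → ℝ)).real (orderSet σ) = 1 := by
  rw [← measureReal_iUnion_fintype orderSet_disjoint (fun s => (orderSet_open s).measurableSet)]
  have h1 : (μ : Measure (Fin k → ℝ)) (⋃ s, orderSet s)ᶜ = 0 := by
    refine measure_mono_null ?_ (h (diffs_null k))
    intro x hx h3
    refine hx (Set.mem_iUnion.2 ⟨Tuple.sort x, ?_⟩)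
    have h4 : Monotone (x ∘ Tuple.sort x) := Tuple.monotone_sort x
    exact h4.strictMono_of_injective (h3.comp (Tuple.sort x).injective)
  have hm : MeasurableSet (⋃ s : Equiv.Perm (Fin k), orderSet s) :=
    MeasurableSet.iUnion fun s => (orderSet_open s).measurableSet
  have h2 := prob_compl_eq_zero_iff hm |>.1 h1
  rw [measureReal_def, h2]
  rfl

end Pool.Agent.V11287.GC
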