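import Mathlib
import Pool.Agent.H383.FullC
import Pool.Agent.W24.MulOrth2
import Pool.Agent.H425R3.JL.F3
import Pool.Agent.H425R3.MM.K11
import Pool.Agent.V11287.GC.Geo

/-!
The joint law of the error terms of the circle problem at shifted radii, as a density in a strong
sense.
-/

set_option autoImplicit false

open Filter Topology MeasureTheory

namespace Pool.Agent.V11287.GC

/-- `N(x)`: the number of integer points `p` with `|p|² ≤ x` -/
noncomputable def count (x : ℝ) : ℕ := Nat.card {p : ℤ × ℤ // (p.1 : ℝ) ^ 2 + (p.2 : ℝ) ^ 2 ≤ x}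

/-- the normalised error term `(N(x) - π x) / x^{1/4}` of the circle problem -/
noncomputable def err (x : ℝ) : ℝ := ((count x : ℝ) - Real.pi * x) / x ^ (1 / 4 : ℝ)

open Classical in
/-- The set `S` of positive integers has the density `d`
* in short intervals: the proportion of `S` in `[m, m + N)` tends to `d` as `N → ∞`, uniformly for
  `m^(1/2 + ε) ≤ N`, for every `ε > 0`;
* among the primes;
* uniformly with respect to all multiplicative weights: `∑_{n ≤ N} g(n) (1_S(n) - d) = o(N)`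
  uniformly over all multiplicative functions `g` with `|g| ≤ 1`;
* with respect to every family of weights `|w_N(n)| ≤ 1` that is asymptotically uncorrelated with
  every irrational rotation. -/
def HasDensity (S : Set ℕ) (d : ℝ) : Prop :=
  (∀ ε : ℝ, 0 < ε → ∀ η : ℝ, 0 < η → ∃ N₀ : ℕ, ∀ N : ℕ, N₀ ≤ N → ∀ m : ℕ, 1 ≤ m →
    (m : ℝ) ^ (1 / 2 + ε) ≤ N →
      |(((Finset.Ico m (m + N)).filter (fun n : ℕ => n ∈ S)).card : ℝ) / N - d| ≤ η) ∧
  Tendsto (fun N : ℕ => (((Finset.Icc 1 N).filter (fun p : ℕ => p.Prime ∧ p ∈ S)).card : ℝ)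
    / ((Finset.Icc 1 N).filter Nat.Prime).card) atTop (𝓝 d) ∧
  (∀ ε : ℝ, 0 < ε → ∃ N₀ : ℕ, ∀ N : ℕ, N₀ ≤ N → ∀ g : ℕ → ℂ, (∀ n, ‖g n‖ ≤ 1) →
    (∀ m n : ℕ, Nat.Coprime m n → g (m * n) = g m * g n) →
    ‖∑ n ∈ Finset.Icc 1 N, g n * (((if n ∈ S then 1 else 0) - d : ℝ) : ℂ)‖ ≤ ε * N) ∧
  (∀ w : ℕ → ℕ → ℂ, (∀ N n, ‖w N n‖ ≤ 1) →
    (∀ θ : ℝ, Irrational θ → Tendsto (fun N : ℕ =>
      (∑ n ∈ Finset.Icc 1 N, w N n * Complex.exp (2 * Real.pi * θ * n * Complex.I)) / N)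
      atTop (𝓝 0)) →
    Tendsto (fun N : ℕ => (∑ n ∈ Finset.Icc 1 N, w N n *
      (((if n ∈ S then 1 else 0) - d : ℝ) : ℂ)) / N) atTop (𝓝 0))

theorem HasDensity.congr {S T : Set ℕ} {d : ℝ} (h : HasDensity S d)
    (hST : ∀ n, 1 ≤ n → (n ∈ S ↔ n ∈ T)) : HasDensity T d := by
  classical
  obtain ⟨h1, h2, h3, h4⟩ := h
  refine ⟨fun ε hε η hη => ?_, ?_, fun ε hε => ?_, fun w hw hw' => ?_⟩
  · obtain ⟨N₀, hN⟩ := h1 ε hε η hη
    refine ⟨N₀, fun N hN' m hm hm' => ?_⟩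
    have := hN N hN' m hm hm'
    have e : (Finset.Ico m (m + N)).filter (fun n : ℕ => n ∈ S)
        = (Finset.Ico m (m + N)).filter (fun n : ℕ => n ∈ T) :=
      Finset.filter_congr fun n hn => hST n (hm.trans (Finset.mem_Ico.1 hn).1)
    rw [e] at this
    exact this
  · refine h2.congr fun N => ?_
    have e : (Finset.Icc 1 N).filter (fun p : ℕ => p.Prime ∧ p ∈ S)
        = (Finset.Icc 1 N).filter (fun p : ℕ => p.Prime ∧ p ∈ T) :=
      Finset.filter_congr fun n hn => by rw [hST n (Finset.mem_Icc.1 hn).1]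
    rw [e]
  · obtain ⟨N₀, hN⟩ := h3 ε hε
    refine ⟨N₀, fun N hN' g hg hg' => ?_⟩
    have := hN N hN' g hg hg'
    have e : ∑ n ∈ Finset.Icc 1 N, g n * (((if n ∈ S then 1 else 0) - d : ℝ) : ℂ)
        = ∑ n ∈ Finset.Icc 1 N, g n * (((if n ∈ T then 1 else 0) - d : ℝ) : ℂ) :=
      Finset.sum_congr rfl fun n hn => by
        have := hST n (Finset.mem_Icc.1 hn).1
        by_cases hS : n ∈ S
        · simp [hS, this.1 hS]
        · have hT : n ∉ T := fun h => hS (this.2 h)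
          simp [hS, hT]
    rw [e] at this
    exact this
  · refine (h4 w hw hw').congr fun N => ?_
    have e : ∑ n ∈ Finset.Icc 1 N, w N n * (((if n ∈ S then 1 else 0) - d : ℝ) : ℂ)
        = ∑ n ∈ Finset.Icc 1 N, w N n * (((if n ∈ T then 1 else 0) - d : ℝ) : ℂ) :=
      Finset.sum_congr rfl fun n hn => by
        have := hST n (Finset.mem_Icc.1 hn).1
        by_cases hS : n ∈ S
        · simp [hS, this.1 hS]
        · have hT : n ∉ T := fun h => hS (this.2 h)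
          simp [hS, hT]
    rw [e]

/-- the usual density -/
theorem HasDensity.tendsto {S : Set ℕ} {d : ℝ} [DecidablePred (· ∈ S)] (h : HasDensity S d) :
    Tendsto (fun N : ℕ => (((Finset.Ico 1 (1 + N)).filter (fun n : ℕ => n ∈ S)).card : ℝ) / N)
      atTop (𝓝 d) := by
  rw [Metric.tendsto_atTop]
  intro η hη
  obtain ⟨N₀, hN⟩ := h.1 1 one_pos (η / 2) (half_pos hη)
  refine ⟨max N₀ 1, fun N hN' => ?_⟩
  have := hN N ((le_max_left _ _).trans hN') 1 le_rfl (by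
    have : (1 : ℕ) ≤ N := (le_max_right _ _).trans hN'
    rw [Nat.cast_one, Real.one_rpow]
    exact_mod_cast this)
  rw [Real.dist_eq]
  have e : (Finset.Ico 1 (1 + N)).filter (fun n : ℕ => n ∈ S)
      = @Finset.filter _ (fun n : ℕ => n ∈ S) (fun a => Classical.propDecidable _)
        (Finset.Ico 1 (1 + N)) := by
    congr
  rw [e]
  linarith

theorem limit_of_window {k : ℕ} {μ : ProbabilityMeasure (Fin k → ℝ)} {e : ℕ → Fin k → ℝ}
    (h : ∀ p : ℝ, 0 < p → p < 6 → ∀ f : (Fin k → ℝ) → ℝ, Continuous f →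
        (∃ C : ℝ, ∀ x, |f x| ≤ C * (1 + ∑ i, |x i| ^ p)) →
        Integrable f (μ : Measure (Fin k → ℝ)) ∧
        ∀ ε : ℝ, 0 < ε → ∀ η : ℝ, 0 < η →
          ∃ N₀ : ℕ, ∀ N : ℕ, N₀ ≤ N → ∀ m : ℕ, (m : ℝ) ^ (max (1 / 2) (p / 6) + ε) ≤ N →
          |(∑ n ∈ Finset.Ico m (m + N), f (e (n + 1))) / N
            - ∫ x, f x ∂(μ : Measure (Fin k → ℝ))| ≤ η)
    (f : BoundedContinuousFunction (Fin k → ℝ) ℝ) :
    Tendsto (fun N : ℕ => (∑ n ∈ Finset.Icc 1 N, f (e n)) / N) atTop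
      (𝓝 (∫ x, f x ∂(μ : Measure (Fin k → ℝ)))) := by
  rw [Metric.tendsto_atTop]
  intro η hη
  obtain ⟨N₀, hN⟩ := (h 1 one_pos (by norm_num) f f.continuous ⟨‖f‖, fun x => by
    have h1 : |f x| ≤ ‖f‖ := f.norm_coe_le_norm x
    have h2 : 0 ≤ ∑ i, |x i| ^ (1 : ℝ) := Finset.sum_nonneg fun i _ => by positivity
    have h3 : 0 ≤ ‖f‖ := norm_nonneg _
    nlinarith⟩).2 1 one_pos (η / 2) (half_pos hη)
  refine ⟨N₀, fun N hN' => ?_⟩
  have := hN N hN' 0 (by
    rw [Nat.cast_zero, Real.zero_rpow (by positivity)]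
    positivity)
  rw [Real.dist_eq]
  have e1 : ∑ n ∈ Finset.Ico 0 (0 + N), f (e (n + 1)) = ∑ n ∈ Finset.Icc 1 N, f (e n) := by
    rw [zero_add, ← Finset.Ico_succ_right_eq_Icc, Finset.sum_Ico_add' (fun n => f (e n)) 0 N 1]
    rfl
  rw [e1] at this
  linarith

theorem law {k : ℕ} (a : ℕ) (ha : 0 < a) (b c : Fin k → ℝ) (hb : Function.Injective b)
    (hP : ∀ i, ∀ n : ℕ, 1 ≤ n → 0 < (a : ℝ) * (n : ℝ) ^ 2 + b i * n + c i) :
    ∃ (μ : ProbabilityMeasure (Fin k → ℝ)) (g : (Fin k → ℂ) → ℂ),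
      Differentiable ℂ g ∧
      (∀ x : Fin k → ℝ, 0 ≤ (g (fun i => (x i : ℂ))).re ∧ (g (fun i => (x i : ℂ))).im = 0) ∧
      (μ : Measure (Fin k → ℝ)) =
        volume.withDensity (fun x : Fin k → ℝ => ENNReal.ofReal (g (fun i => (x i : ℂ))).re) ∧
      (∀ A : Set (Fin k → ℝ), IsOpen A → A.Nonempty → 0 < (μ : Measure (Fin k → ℝ)) A) ∧
      ∀ A : Set (Fin k → ℝ), volume (frontier A) = 0 →
        HasDensity {n : ℕ | (fun i => err ((a : ℝ) * (n : ℝ) ^ 2 + b i * n + c i)) ∈ A}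
          ((μ : Measure (Fin k → ℝ)).real A) := by
  classical
  have ha' : (0 : ℝ) < a := by exact_mod_cast ha
  have hsh : ∀ i, ∀ n : ℕ, (a : ℝ) * (n : ℝ) ^ 2 + (2 * a + b i) * n + (a + b i + c i)
      = (a : ℝ) * ((n + 1 : ℕ) : ℝ) ^ 2 + b i * ((n + 1 : ℕ) : ℝ) + c i := by
    intro i n; push_cast; ring
  have hP' : ∀ i, ∀ n : ℕ, 0 < (a : ℝ) * (n : ℝ) ^ 2 + (2 * a + b i) * n + (a + b i + c i) := by
    intro i n; rw [hsh]; exact hP i (n + 1) (by omega)
  have hbi : Function.Injective (fun i => 2 * (a : ℝ) + b i) := by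
    intro i j h; apply hb; simpa using h
  set e : ℕ → Fin k → ℝ := fun n i => err ((a : ℝ) * (n : ℝ) ^ 2 + b i * n + c i) with he
  obtain ⟨μ, g, hg, hg0, hgμ, hop, hmom, hset⟩ := Pool.Agent.H425R3.MM.final_mom
    Pool.Agent.H425R3.JD.circ_dataW Pool.Agent.H425R3.MM.circ_Lv ha' (fun i => 2 * (a : ℝ) + b i)
    (fun i => a + b i + c i) hbi hP'
  obtain ⟨μP, -, -, hcP, hsP⟩ := Pool.Agent.H425R3.JL.final_gen Pool.Agent.H425R3.JL.circ_data
    (fun _ => a) b c (fun _ => ha) hP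
  obtain ⟨μM, -, -, hM⟩ := Pool.Agent.W24.MulOrth.mo_gen Pool.Agent.H425R3.JL.circ_data
    (fun _ => a) b c (fun _ => ha) hP
  have hJ : ∀ n : ℕ, (fun i => Pool.Agent.H425R3.JL.Ec
      ((a : ℝ) * (n : ℝ) ^ 2 + (2 * a + b i) * n + (a + b i + c i))) = e (n + 1) := by
    intro n
    funext i
    rw [hsh]
    rfl
  simp only [hJ] at hmom hset
  have hEe : ∀ n : ℕ, (fun i => Pool.Agent.H425R3.JL.Ec ((a : ℝ) * (n : ℝ) ^ 2 + b i * n + c i))
      = e n := fun n => rfl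
  simp only [hEe] at hcP hsP hM
  have hbd : ∀ f : BoundedContinuousFunction (Fin k → ℝ) ℝ, ∃ C : ℝ, ∀ x,
      |f x| ≤ C * (1 + ∑ i, x i ^ 2) := fun f => ⟨‖f‖, fun x => by
    have h1 : |f x| ≤ ‖f‖ := f.norm_coe_le_norm x
    have h2 : 0 ≤ ∑ i, x i ^ 2 := Finset.sum_nonneg fun i _ => by positivity
    have h3 : 0 ≤ ‖f‖ := norm_nonneg _
    nlinarith⟩
  have limJ := limit_of_window (e := e) hmom
  have eP : (μP : Measure (Fin k → ℝ)) = μ :=
    ext_of_forall_integral_eq_of_IsFiniteMeasure fun f =>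
      tendsto_nhds_unique (hcP f f.continuous (hbd f)).1 (limJ f)
  have limM : ∀ f : BoundedContinuousFunction (Fin k → ℝ) ℝ,
      Tendsto (fun N : ℕ => (∑ n ∈ Finset.Icc 1 N, f (e n)) / N) atTop
        (𝓝 (∫ x, f x ∂(μM : Measure (Fin k → ℝ)))) := by
    intro f
    rw [Metric.tendsto_atTop]
    intro η hη
    obtain ⟨N₀, hN⟩ := (hM f (Or.inl ⟨f.continuous, hbd f⟩)).1 (η / 2) (half_pos hη)
    refine ⟨max N₀ 1, fun N hN' => ?_⟩
    have h1 := hN N ((le_max_left _ _).trans hN') (fun _ => 1) (fun _ => by simp)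
      (fun _ _ _ => by simp)
    have hN1 : (1 : ℕ) ≤ N := (le_max_right _ _).trans hN'
    have hN0 : (0 : ℝ) < N := by exact_mod_cast hN1
    set I : ℝ := ∫ x, f x ∂(μM : Measure (Fin k → ℝ)) with hI
    have e1 : ∑ n ∈ Finset.Icc 1 N, (1 : ℂ) * ((f (e n) - I : ℝ) : ℂ)
        = ((∑ n ∈ Finset.Icc 1 N, f (e n) - N * I : ℝ) : ℂ) := by
      simp only [one_mul]
      rw [← Complex.ofReal_sum, Finset.sum_sub_distrib]
      simp
    rw [e1, Complex.norm_real, Real.norm_eq_abs] at h1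
    rw [Real.dist_eq]
    have e2 : (∑ n ∈ Finset.Icc 1 N, f (e n)) / N - I
        = (∑ n ∈ Finset.Icc 1 N, f (e n) - N * I) / N := by
      field_simp
    rw [e2, abs_div, abs_of_pos hN0, div_lt_iff₀ hN0]
    nlinarith
  have eM : (μM : Measure (Fin k → ℝ)) = μ :=
    ext_of_forall_integral_eq_of_IsFiniteMeasure fun f =>
      tendsto_nhds_unique (limM f) (limJ f)
  refine ⟨μ, g, hg, hg0, hgμ, hop, fun A hA => ?_⟩
  have hac : (μ : Measure (Fin k → ℝ)) ≪ volume := by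
    rw [hgμ]
    exact withDensity_absolutelyContinuous _ _
  have hfr : (μ : Measure (Fin k → ℝ)) (frontier A) = 0 := hac hA
  have hind : ∫ x, A.indicator 1 x ∂(μM : Measure (Fin k → ℝ))
      = (μ : Measure (Fin k → ℝ)).real A := by
    rw [eM]
    have hn : NullMeasurableSet A (μ : Measure (Fin k → ℝ)) := nullMeasurableSet_of_null_frontier hfr
    have h1 : ∫ x, A.indicator (1 : (Fin k → ℝ) → ℝ) x ∂(μ : Measure (Fin k → ℝ))
        = ∫ x in A, (1 : (Fin k → ℝ) → ℝ) x ∂(μ : Measure (Fin k → ℝ)) := integral_indicator₀ hn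
    rw [h1]
    simp
  refine ⟨fun ε hε η hη => ?_, ?_, ?_, ?_⟩
  · obtain ⟨N₀, hN⟩ := hset A hA ε hε η hη
    refine ⟨N₀, fun N hN' m hm hm' => ?_⟩
    obtain ⟨m', rfl⟩ : ∃ m', m = m' + 1 := ⟨m - 1, by omega⟩
    have h1 := hN N hN' m' (by
      refine le_trans ?_ hm'
      refine Real.rpow_le_rpow (by positivity) ?_ (by positivity)
      push_cast
      linarith)
    have e1 : (((Finset.Ico (m' + 1) (m' + 1 + N)).filter (fun n : ℕ =>
        n ∈ {n : ℕ | e n ∈ A})).card : ℝ)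
        = ((Finset.Ico m' (m' + N)).filter (fun n : ℕ => e (n + 1) ∈ A)).card := by
      have e2 : Finset.Ico (m' + 1) (m' + 1 + N)
          = (Finset.Ico m' (m' + N)).map (addRightEmbedding 1) := by
        rw [Finset.map_add_right_Ico]
        congr 1
        omega
      rw [e2, Finset.filter_map, Finset.card_map]
      rfl
    convert h1 using 3
    congr 1
  · have h1 := (hsP A (by rw [eP]; exact hfr)).2
    rw [eP] at h1
    convert h1
    all_goals exact Iff.rfl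
  · intro ε hε
    obtain ⟨N₀, hN⟩ := (hM (A.indicator 1) (Or.inr ⟨A, by rw [eM]; exact hfr, rfl⟩)).1 ε hε
    refine ⟨N₀, fun N hN' g hg hg' => ?_⟩
    have h1 := hN N hN' g hg hg'
    rw [hind] at h1
    convert h1
    all_goals
      rw [Set.indicator_apply]
      exact if_congr Iff.rfl rfl rfl
  · intro w hw hw'
    have h1 := (hM (A.indicator 1) (Or.inr ⟨A, by rw [eM]; exact hfr, rfl⟩)).2 w hw hw'
    rw [hind] at h1
    convert h1
    all_goals
      rw [Set.indicator_apply]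
      exact if_congr Iff.rfl rfl rfl

end Pool.Agent.V11287.GC
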